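import Pool.Agent.ZES.StmtsX

namespace Pool.Agent.ZES.H40

open scoped BigOperators InnerProductSpace
open Pool.Agent.THS Pool.Agent.ZES

theorem lN_nonneg {K : Type} [Field K] [NumberField K] (v : NumberField.FinitePlace K) :
    0 ≤ lN v := by
  unfold lN
  exact Real.log_natCast_nonneg _

theorem mix (h1 : SzsStatement) (h2 : ThsStatement) : MixStatement := by
  intro g σ
  obtain ⟨l, hl, hodd, h1⟩ := h1 g (2 * max σ 0)
  refine ⟨l, hl, hodd, fun c d hc => ?_⟩
  obtain ⟨B1, hB1⟩ := h1 d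
  obtain ⟨B2, hB2⟩ := h2 g d c (2 * max σ 0) hc
  refine ⟨c * B1 + B2 + B1, ?_⟩
  intro K _ _ hd φ τ hτ z hz S T ev x hx hT hS hH
  have hσ : 0 ≤ max σ 0 := le_max_right _ _
  have hTn : 0 ≤ ∑ v ∈ T, lN v := Finset.sum_nonneg fun v _ => lN_nonneg v
  have hSn : 0 ≤ ∑ v ∈ S, (ev v : ℝ) * lN v :=
    Finset.sum_nonneg fun v _ => mul_nonneg (Nat.cast_nonneg _) (lN_nonneg v)
  have hH' : Real.log (Height.mulHeight (x 0))
      ≤ max σ 0 * (∑ v ∈ T, lN v + ∑ v ∈ S, (ev v : ℝ) * lN v) :=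
    hH.trans (mul_le_mul_of_nonneg_right (le_max_left _ _) (add_nonneg hTn hSn))
  by_cases hcase : ∑ v ∈ S, (ev v : ℝ) * lN v ≤ ∑ v ∈ T, lN v
  · -- toric case
    left
    have h3 := hB2 K hd φ τ hτ z hz (fun k => x (k, 0, 0)) (fun k => (hx (k, 0, 0) (Or.inr rfl)).1)
      (fun k => by
        obtain ⟨μ, hμ⟩ := (hx (k, 0, 0) (Or.inr rfl)).2
        refine ⟨μ, fun ab => ?_⟩
        rw [hμ ab]
        congr 1
        congr 1
        funext r
        simp [SZG.gam])
      T (fun v hv => (hT v hv).1) (fun v hv k => (hT v hv).2 k) (by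
        show Real.log (Height.mulHeight (x (0, 0, 0))) ≤ _
        have h0 : ((0, 0, 0) : SZG.Idx g) = 0 := rfl
        rw [h0]
        refine hH'.trans ?_
        nlinarith)
    obtain ⟨M, hM1, hM2, hM3⟩ := h3
    exact ⟨M, hM1, by omega, hM3⟩
  · push Not at hcase
    have hSne : S.Nonempty := by
      by_contra hne
      rw [Finset.not_nonempty_iff_eq_empty] at hne
      rw [hne, Finset.sum_empty] at hcase
      linarith
    have hx' : ∀ i : SZG.Idx g, x i ≠ 0 ∧
      ∃ μ : ℂ, ∀ ab, φ (x i ab) = μ * Vab τ ab.1 ab.2 (SZG.gam τ z l i) :=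
      fun i => hx i (Or.inl hSne)
    have h3 := hB1 K hd φ τ hτ (c • z) (by
        obtain ⟨N, hN, p, q, hpq⟩ := hz
        refine ⟨N, hN, fun i => (c : ℤ) * p i, fun i => (c : ℤ) * q i, fun i => ?_⟩
        have h4 : (N : ℂ) * z i = (p i : ℂ) + ∑ j, τ i j * (q j : ℂ) := hpq i
        have h5 : (N : ℂ) * (c • z) i = (c : ℂ) * ((N : ℂ) * z i) := by
          rw [Pi.smul_apply, nsmul_eq_mul]
          ring
        show (N : ℂ) * (c • z) i = (((c : ℤ) * p i : ℤ) : ℂ)
          + ∑ j, τ i j * (((c : ℤ) * q j : ℤ) : ℂ)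
        rw [h5, h4, mul_add, Finset.mul_sum]
        push_cast
        congr 1
        refine Finset.sum_congr rfl fun j _ => ?_
        ring)
      (fun i => x ((c : ℤ) * i.1, i.2)) (fun i => (hx' _).1)
      (fun i => by
        obtain ⟨μ, hμ⟩ := (hx' ((c : ℤ) * i.1, i.2)).2
        refine ⟨μ, fun ab => ?_⟩
        rw [hμ ab]
        congr 1
        congr 1
        funext r
        simp only [SZG.gam, Pi.smul_apply, nsmul_eq_mul]
        push_cast
        ring)
      S ev (fun v hv => by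
        obtain ⟨h4, h5, h6, p, q, h7, h8⟩ := hS v hv
        refine ⟨h4, h5, fun k => ?_, p, q, h7, fun u => ?_⟩
        · have h9 := h6 k
          have h10 : ((c : ℤ) * (0 : SZG.Idx g).1, (0 : SZG.Idx g).2) = (0 : SZG.Idx g) := by
            show ((c : ℤ) * 0, (0 : (Fin g → ℤ) × (Fin g → ℤ))) = 0
            rw [mul_zero]
            rfl
          simp only [h10]
          exact h9
        · have h9 := h8 u
          have h10 : ((c : ℤ) * (0 : SZG.Idx g).1, (0 : SZG.Idx g).2) = (0 : SZG.Idx g) := by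
            show ((c : ℤ) * 0, (0 : (Fin g → ℤ) × (Fin g → ℤ))) = 0
            rw [mul_zero]
            rfl
          have h11 : ((c : ℤ) * (u • ((0, p, q) : SZG.Idx g)).1, (u • ((0, p, q) : SZG.Idx g)).2)
              = u • ((0, p, q) : SZG.Idx g) := by
            refine Prod.ext ?_ rfl
            show (c : ℤ) * (u • (0 : ℤ)) = u • (0 : ℤ)
            rw [smul_zero, mul_zero]
          simp only [h10, h11]
          exact h9)
      (by
        have h10 : ((c : ℤ) * (0 : SZG.Idx g).1, (0 : SZG.Idx g).2) = (0 : SZG.Idx g) := by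
          show ((c : ℤ) * 0, (0 : (Fin g → ℤ) × (Fin g → ℤ))) = 0
          rw [mul_zero]
          rfl
        simp only [h10]
        refine hH'.trans ?_
        nlinarith)
    rcases h3 with ⟨M, hM1, hM2, hM3⟩ | ⟨W, hW1, hW2, hW3, ⟨M, hM1, hM2, u, hu, hM3⟩, k, hk1, hk2, hk3⟩
    · left
      refine ⟨c * M, Nat.mul_pos hc hM1, ?_, ?_⟩
      · have : c * M ≤ c * B1 := Nat.mul_le_mul_left c hM2
        omega
      · obtain ⟨p, q, hpq⟩ := hM3
        refine ⟨p, q, fun i => ?_⟩
        have h4 : (M : ℂ) * (c • z) i = (p i : ℂ) + ∑ j, τ i j * (q j : ℂ) := hpq i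
        rw [← h4, Pi.smul_apply, nsmul_eq_mul]
        show ((c * M : ℕ) : ℂ) * z i = _
        push_cast
        ring
    · right
      refine ⟨hSne, W, hW1, hW2, hW3, ⟨c * M, Nat.mul_pos hc hM1, ?_, u, hu, ?_⟩, k, hk1, by omega,
        hk3⟩
      · have : c * M ≤ c * B1 := Nat.mul_le_mul_left c hM2
        omega
      · have h12 : (c * M) • z - u = M • c • z - u := by
          rw [mul_comm, mul_smul]
        rw [h12]
        exact hM3

end Pool.Agent.ZES.H40
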