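import Pool.Agent.ZES.StmtsY
import Pool.Agent.Helper40_ZES.MIX
import Pool.Agent.Helper19_ZES.SZS

namespace Pool.Agent.ZES.H40

open scoped BigOperators InnerProductSpace
open Pool.Agent.THS Pool.Agent.ZES

theorem fin (hG : SZG.Szg3Statement) (hZ : ZetStmt) (h2 : ThsStatement) : FinStatement := by
  intro g σ G
  have hσ : 0 ≤ max σ 0 := le_max_right _ _
  obtain ⟨n, hn⟩ := hG g (2 * max σ 0) G
  obtain ⟨l, hl1, hl2⟩ := Nat.exists_infinite_primes (n + 3)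
  have hodd : Odd l := hl2.odd_of_ne_two (by omega)
  obtain ⟨c1, hc1, hn⟩ := hn l hl2 hodd
  refine ⟨l, hl2, hodd, fun c d hc => ?_⟩
  obtain ⟨B1, hB1⟩ := hn d
  obtain ⟨B2, hB2⟩ := h2 g d c (2 * max σ 0) hc
  have hl0 : 1 ≤ l ^ 2 := Nat.one_le_pow _ _ (by omega)
  obtain ⟨B3, hB3⟩ := hZ g (4 * l ^ 2) ⟨2 * l ^ 2, by ring⟩ (by omega)
  refine ⟨B1 + B2 + c1 * B3 + B3 + 1, ?_⟩
  intro K _ _ hd φ τ hτ z hz S T ev t m x hx hT hS hH
  have hTn : 0 ≤ ∑ v ∈ T, lN v := Finset.sum_nonneg fun v _ => lN_nonneg v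
  have hSn : 0 ≤ ∑ v ∈ S, (ev v : ℝ) / (t v : ℝ) * lN v :=
    Finset.sum_nonneg fun v _ => mul_nonneg (div_nonneg (Nat.cast_nonneg _) (Nat.cast_nonneg _))
      (lN_nonneg v)
  have hH' : Real.log (Height.mulHeight (x 0))
      ≤ max σ 0 * (∑ v ∈ T, lN v + ∑ v ∈ S, (ev v : ℝ) / (t v : ℝ) * lN v) :=
    hH.trans (mul_le_mul_of_nonneg_right (le_max_left _ _) (add_nonneg hTn hSn))
  by_cases hcase : ∑ v ∈ S, (ev v : ℝ) / (t v : ℝ) * lN v ≤ ∑ v ∈ T, lN v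
  · -- toric case
    left
    have h3 := hB2 K hd φ τ hτ z hz (fun k => x (k, 0, 0)) (fun k => (hx (k, 0, 0) (Or.inr rfl)).1)
      (fun k => by
        obtain ⟨μ, hμ⟩ := (hx (k, 0, 0) (Or.inr rfl)).2
        refine ⟨μ, fun ab => ?_⟩
        rw [hμ ab]
        congr 1
        congr 1
        funext r
        simp [SZG.gam])
      T (fun v hv => (hT v hv).1) (fun v hv k => (hT v hv).2 k) (by
        show Real.log (Height.mulHeight (x (0, 0, 0))) ≤ _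
        have h0 : ((0, 0, 0) : SZG.Idx g) = 0 := rfl
        rw [h0]
        refine hH'.trans ?_
        nlinarith)
    obtain ⟨M, hM1, hM2, hM3⟩ := h3
    exact ⟨M, hM1, by omega, hM3⟩
  push Not at hcase
  have hSne : S.Nonempty := by
    by_contra hne
    rw [Finset.not_nonempty_iff_eq_empty] at hne
    rw [hne, Finset.sum_empty] at hcase
    linarith
  rcases Nat.eq_zero_or_pos g with hg | hg
  · subst hg
    left
    exact ⟨1, le_refl _, by omega, fun _ => 0, fun _ => 0, fun i => i.elim0⟩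
  have hx' : ∀ i : SZG.Idx g, x i ≠ 0 ∧
    ∃ μ : ℂ, ∀ ab, φ (x i ab) = μ * Vab τ ab.1 ab.2 (SZG.gam τ z l i) :=
    fun i => hx i (Or.inl hSne)
  rcases hB1 K hd φ τ hτ z hz x (fun i => (hx' i).1) (fun i => (hx' i).2) S ev t m hS (by
      refine hH'.trans ?_
      nlinarith) with ⟨M, hM1, hM2, hM3⟩ | ⟨F, hF1, hF2⟩
  · left
    exact ⟨M, hM1, by omega, hM3⟩
  have hpos : 0 < 2 ^ g * l ^ (2 * g) - n * l ^ (2 * g - 1) := by
    have e1 : l ^ (2 * g) = l * l ^ (2 * g - 1) := by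
      rw [← pow_succ']
      congr 1
      omega
    have e2 : 0 < l ^ (2 * g - 1) := pow_pos (by omega) _
    have e3 : 1 ≤ 2 ^ g := Nat.one_le_two_pow
    have e4 : n * l ^ (2 * g - 1) < 2 ^ g * l ^ (2 * g) := by
      rw [e1]
      calc n * l ^ (2 * g - 1) < l * l ^ (2 * g - 1) :=
            Nat.mul_lt_mul_of_pos_right (by omega) e2
        _ = 1 * (l * l ^ (2 * g - 1)) := (one_mul _).symm
        _ ≤ 2 ^ g * (l * l ^ (2 * g - 1)) := Nat.mul_le_mul_right _ e3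
    omega
  obtain ⟨hdiff, hper, hvan⟩ := hF2 ⟨0, hpos⟩
  have hne := hF1.ne_zero ⟨0, hpos⟩
  generalize F ⟨0, hpos⟩ = F0 at hdiff hper hvan hne
  have hRR : F0 ∈ RR τ (2 * (4 * l ^ 2)) := by
    refine ⟨hdiff, fun w p q => ?_⟩
    have h1 := hper w p q
    have e1 : F0 (w + pr τ p q) = F0 (fun i => w i + ((p i : ℂ) + ∑ j, τ i j * (q j : ℂ))) := rfl
    rw [e1, h1]
    congr 2
    push_cast
    ring
  obtain ⟨y, hy⟩ := Function.ne_iff.1 hne
  have hz1 : ∃ N : ℕ, 0 < N ∧ InLat τ (fun i => (N : ℂ) * (c1 • z) i) := by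
    obtain ⟨N, hN, p, q, hpq⟩ := hz
    refine ⟨N, hN, fun i => (c1 : ℤ) * p i, fun i => (c1 : ℤ) * q i, fun i => ?_⟩
    have h4 : (N : ℂ) * z i = (p i : ℂ) + ∑ j, τ i j * (q j : ℂ) := hpq i
    have h5 : (N : ℂ) * (c1 • z) i = (c1 : ℂ) * ((N : ℂ) * z i) := by
      rw [Pi.smul_apply, nsmul_eq_mul]
      ring
    show (N : ℂ) * (c1 • z) i = (((c1 : ℤ) * p i : ℤ) : ℂ)
      + ∑ j, τ i j * (((c1 : ℤ) * q j : ℤ) : ℂ)
    rw [h5, h4, mul_add, Finset.mul_sum]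
    push_cast
    congr 1
    refine Finset.sum_congr rfl fun j _ => ?_
    ring
  have hvan1 : ∀ k : ℕ, F0 (fun i => (k : ℂ) * (c1 • z) i) = 0 := fun k => by
    have h5 : (fun i => (k : ℂ) * (c1 • z) i) = fun i => (k : ℂ) * ((c1 : ℂ) * z i) := by
      funext i
      rw [Pi.smul_apply, nsmul_eq_mul]
    rw [h5]
    exact hvan k
  obtain ⟨W, hW1, hW2, ⟨M, hM1, hM2, u, hu, hlat⟩, k, hk1, hk2, hk3⟩ :=
    hB3 τ hτ (c1 • z) F0 hRR (H19.van_int hRR hz1 hvan1) ⟨y, hy⟩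
  have hcM : c1 * M ≤ c1 * B3 := Nat.mul_le_mul_left c1 hM2
  have e12 : (c1 * M) • z - u = M • c1 • z - u := by
    rw [mul_comm, mul_smul]
  by_cases hW : W = ⊥
  · left
    refine ⟨c1 * M, Nat.mul_pos hc1 hM1, by omega, ?_⟩
    subst hW
    have h0 : u = 0 := (Submodule.mem_bot ℂ).1 hu
    subst h0
    have e1 : (fun i => ((c1 * M : ℕ) : ℂ) * z i) = (c1 * M) • z - 0 := by
      funext i
      rw [sub_zero, Pi.smul_apply, nsmul_eq_mul]
    rw [e1, e12]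
    exact hlat
  · right
    refine ⟨hSne, W, hW, hW1, hW2, ⟨c1 * M, Nat.mul_pos hc1 hM1, by omega, u, hu, ?_⟩, k, hk1,
      by omega, fun v hv => hk3 v fun f hf hf0 => hv f hf fun w hw => ?_⟩
    · rw [e12]
      exact hlat
    · have := hf0 0 w hw
      rw [zero_smul, zero_add] at this
      exact this

end Pool.Agent.ZES.H40
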