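import Pool.Agent.ZES.StmtsC

namespace Pool.Agent.ZES.H40

open scoped BigOperators
open Pool.Agent.ZES MvPolynomial

theorem lse : LseStmt := by
  intro M K _ V W hVW hdeg
  set m := (MonomialOrder.lex (σ := Fin M)) with hm
  have key : ∀ a : m.syn, ∀ p ∈ W, m.toSyn (m.degree p) = a → p ∈ V := by
    intro a
    induction a using WellFoundedLT.induction with
    | ind a ih =>
      intro p hp hpa
      by_cases hp0 : p = 0
      · rw [hp0]
        exact V.zero_mem
      obtain ⟨q, hq, hq0, hqp⟩ := hdeg p hp hp0
      have hlq : m.leadingCoeff q ≠ 0 := m.leadingCoeff_ne_zero_iff.2 hq0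
      set c : K := m.leadingCoeff p / m.leadingCoeff q with hc
      have hp' : p - c • q ∈ W := W.sub_mem hp (W.smul_mem c (hVW hq))
      have hpq : p = (p - c • q) + c • q := by ring
      have hmem : p - c • q ∈ V := by
        by_cases h0 : p - c • q = 0
        · rw [h0]
          exact V.zero_mem
        refine ih (m.toSyn (m.degree (p - c • q))) ?_ _ hp' rfl
        have h1 : m.toSyn (m.degree (p - c • q)) ≤ m.toSyn (m.degree p) := by
          refine (m.degree_sub_le).trans ?_
          refine sup_le le_rfl ?_
          refine (m.degree_smul_le).trans ?_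
          rw [← hqp]
        have h2 : m.degree (p - c • q) ≠ m.degree p := by
          intro he
          have h3 : (p - c • q).coeff (m.degree (p - c • q)) ≠ 0 :=
            m.coeff_degree_ne_zero_iff.2 h0
          apply h3
          rw [he, coeff_sub, coeff_smul, smul_eq_mul]
          have h4 : p.coeff (m.degree p) = m.leadingCoeff p := rfl
          have h5 : q.coeff (m.degree p) = m.leadingCoeff q := by
            rw [← hqp]
            rfl
          rw [h4, h5, hc]
          field_simp
          simp
        rw [← hpa]
        refine lt_of_le_of_ne h1 fun he => h2 ?_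
        exact m.toSyn.injective he
      rw [hpq]
      exact V.add_mem hmem (V.smul_mem c hq)
  intro p hp
  exact key _ p hp rfl

end Pool.Agent.ZES.H40
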