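import Pool.Agent.ZES.StmtsF

namespace Pool.Agent.ZES.H40

open scoped BigOperators
open Pool.Agent.THS Pool.Agent.ZES

theorem nvt (hS : SpnStmt) (hR : RmlStmt) : NvtStmt := by
  intro g τ hτ e he h2 x
  obtain ⟨F, hF, hFx⟩ := (hR g τ hτ).2 e he h2 x
  obtain ⟨c, hc⟩ := hS g τ hτ e (by omega) F hF
  by_contra hne
  push Not at hne
  apply hFx
  rw [hc x]
  refine Finset.sum_eq_zero fun j _ => ?_
  rw [hne, mul_zero]

theorem prv (h : Pr2Stmt) : PrvStmt := by
  intro g τ hτ D hD i j x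
  have hD0 : (D : ℂ) ≠ 0 := by exact_mod_cast (by omega : D ≠ 0)
  have hD0' : (D : ℝ) ≠ 0 := by exact_mod_cast (by omega : D ≠ 0)
  have hS : Siegel ((D : ℂ) • τ) := by
    obtain ⟨h1, h2⟩ := hτ
    refine ⟨by rw [Matrix.transpose_smul, h1], ?_⟩
    have h3 : ((D : ℂ) • τ).map Complex.im = (D : ℝ) • (τ.map Complex.im) := by
      ext a b
      simp [Matrix.map_apply, Matrix.smul_apply]
    rw [h3]
    exact h2.smul (by exact_mod_cast hD)
  have h1 := h g ((D : ℂ) • τ) hS (fun r => (i r : ℝ) / (D : ℝ)) (fun r => (j r : ℝ) / (D : ℝ))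
    (fun r => (D : ℂ) * x r) (fun r => (D : ℂ) * x r)
  unfold vt
  rw [h1]
  refine Finset.sum_congr rfl fun c _ => ?_
  have e1 : ((2 * D : ℕ) : ℂ) • τ = (2 : ℂ) • (D : ℂ) • τ := by
    rw [smul_smul]
    push_cast
    rfl
  rw [e1]
  congr 1
  · congr 1
    · funext r
      unfold hv
      push_cast
      field_simp
    · funext r
      push_cast
      ring
  · congr 1
    · funext r
      unfold hv
      push_cast
      field_simp
    · funext r
      simp

end Pool.Agent.ZES.H40
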