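import Pool.Agent.ZES.StmtsZ
import Pool.Agent.Helper57_SZG.Final
import Pool.Agent.Helper40_ZES.LSE
import Pool.Agent.Helper40_ZES.NVP
import Pool.Agent.Helper65_ZES.HDT
import Pool.Agent.Helper51_ZES.NVT
import Pool.Agent.Helper44_ZES.FSH
import Pool.Agent.Helper46_ZES.BND
import Pool.Agent.Helper80_ZES.ZET
import Pool.Agent.Helper91_ZES.PWM
import Pool.Agent.Helper92_ZES.UMU
import Pool.Agent.Helper88_ZES.BAD
import Pool.Agent.Helper77_ZES.DIK
import Pool.Agent.Helper86_ZES.CHN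
import Pool.Agent.Helper62_ZES.PWD
import Pool.Agent.Helper65_ZES.FLM
import Pool.Agent.Helper10_ZES.ADM
import Pool.Agent.Helper82_ZES.VMZ
import Pool.Agent.Helper16_ZES.ZGR
import Pool.Agent.Helper52_ZES.TAN
import Pool.Agent.Helper69_ZES.DER
import Pool.Agent.Helper45_ZES.GEN
import Pool.Agent.Helper94_ZES.ODE
import Pool.Agent.Helper76_ZES.LNZ
import Pool.Agent.Helper71_ZES.GOU
import Pool.Agent.Helper67_ZES.LIC
import Pool.Agent.Helper53_ZES.RNK
import Pool.Agent.Helper72_ZES.LOU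
import Pool.Agent.Helper85_ZES.CPT
import Pool.Agent.Helper95_ZES.GSM
import Pool.Agent.Helper62_ZES.ALN
import Pool.Agent.Helper67_ZES.CAU
import Pool.Agent.Helper43_ZES.HOL
import Pool.Agent.Helper20_ZES.DFD
import Pool.Agent.Helper36_ZES.PAR
import Pool.Agent.Helper88_ZES.HFA
import Pool.Agent.Helper24_ZES.HFB
import Pool.Agent.Helper31_ZES.BNW
import Pool.Agent.Helper76_ZES.TRN
import Pool.Agent.Helper69_ZES.PSI
import Pool.Agent.Helper41_ZES.PHI
import Pool.Agent.Helper47_ZES.POI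
import Pool.Agent.Helper7_ZES.CNT
import Pool.Agent.Helper91_ZES.PRT
import Pool.Agent.Helper86_ZES.PIC
import Pool.Agent.Helper10_ZES.FUQ
import Pool.Agent.Helper77_ZES.FSR
import Pool.Agent.Helper92_ZES.QPR
import Pool.Agent.Helper42_ZES.DIM
import Pool.Agent.Helper39_ZES.VTF
import Pool.Agent.Helper88_ZES.SPN
import Pool.Agent.Helper49_ZES.PR2
import Pool.Agent.Helper3_ZES.CHS
import Pool.Agent.Helper81_ZES.UVL
import Pool.Agent.Helper91_ZES.RML
import Pool.Agent.Helper94_ZES.MUL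
import Pool.Agent.Helper70_ZES.QMX
import Pool.Agent.Helper92_ZES.PQI
import Pool.Agent.Helper5_ZES.ALI
import Pool.Agent.Helper82_ZES.GAU
import Pool.Agent.Helper7_ZES.TNM
import Pool.Agent.Helper64_ZES.ESD
import Pool.Agent.Helper11_ZES.JAC
import Pool.Agent.Helper7_ZES.SEP
import Pool.Agent.Helper3_ZES.AZE
import Pool.Agent.Helper52_ZES.TRF

namespace Pool.Agent.ZES.H40

open Pool.Agent.THS Pool.Agent.ZES

/-- The zero estimate. -/
theorem zetFinal : ZetStmt := by
  -- THS and SZG part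
  have hTBD : TbdStatement :=
    Pool.Agent.Helper92_THS.tbd THS.H77.coe THS.H27.gso THS.H56.pis
  have hTLD : TldStatement := THS.H21.tld hTBD
  have hTPE : TpeStatement := THS.H65.tpe
  have hPRD : PrdStatement := THS.H53.prd hTBD THS.H90.bij
  have hRRE : RreStatement := THS.H62.rre hPRD hTPE
  have hORT : OrtStatement := THS.H70.ort
  have hINV : THS.InvStatement := THS.H62.inv hRRE hORT
  have hTCP : TcpStatement := THS.H49.tcp hTPE
  have hTNV : TnvStatement := THS.H16.tnv hTBD THS.H53.grd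
  have hTCN : TcnStatement := THS.H87.tcn hPRD hTLD hTNV THS.H10.lprF
  have hKMO' : KmoStatement :=
    THS.H2.kmo hPRD hTPE hTLD hTNV hTCN THS.H91.sqm THS.H86.lin
  have hKLA : KlaStatement := THS.H44.kla hKMO' hTPE hTNV
  have hTOU : TouStatement := THS.H60.tou hRRE hINV hTCP hTCN hKLA
  have hTDF : SZG.TdfStmt := SZG.H94.tdf hTBD
  -- block C
  have hPWM : PwmStmt := H91.pwm
  have hUMU : UmuStmt := H92.umu hPWM
  have hBAD : BadStmt := H88.bad H40.lse hUMU
  have hCHN : ChnStmt := H86.chn hUMU hBAD H77.dik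
  -- block G
  have hPWD : PwdStmt := H62.pwd
  have hFLM : FlmStmt := H65.flm
  have hADM : AdmStmt := H10.adm
  have hVMZ : VmzStmt := H82.vmz hPWD
  have hZGR : ZgrStmt := H16.zgr hPWD hADM hVMZ
  have hTAN : TanStmt := H52.tan hPWD hADM hVMZ hZGR
  have hDER : DerStmt := H69.der hPWD hFLM hADM
  have hLNZ : LnzStmt := H76.lnz hPWD hTAN hDER H45.gen H94.ode
  have hGOU : GouStmt := H71.gou hPWD hZGR hLNZ
  -- block L
  have hLOU : LouStmt := H72.lou H67.lic H53.rnk
  have hCPT : CptStmt := H85.cpt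
  have hGSM : GsmStmt := H95.gsm
  -- block B
  have hALN : AlnStmt := H62.aln
  have hCAU : CauStmt := H67.cau
  have hHOL : HolStmt := H43.hol hCAU
  have hDFD : DfdStmt := H20.dfd hCAU hHOL
  have hPAR : ParStmt := H36.par hCAU
  have hHFA : HfaStmt := H88.hfa hDFD hPAR
  have hHFB : HfbStmt := H24.hfb hCAU
  have hHDT : HdtStmt := H65.hdt hALN hHFA hHFB
  have hBNW : BnwStmt := H31.bnw hALN hCPT
  have hTRN : TrnStmt := H76.trn hBNW
  have hPSI : PsiStmt := H69.psi hTRN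
  have hPHI : PhiStmt := H41.phi hALN hCPT hHDT hTRN hPSI
  have hPOI : PoiStmt := H47.poi hALN hGSM hHOL
  have hCNT : CntStmt := H7.cnt hPHI hPOI
  -- block F
  have hPIC : PicStmt := H86.pic Pool.Agent.Helper91_ZES.PRT.result
  have hFSH : FshStmt := H44.fsh hPIC
  have hFSR : FsrStmt := H77.fsr
  have hQPR : QprStmt := H92.qpr hFSH
  have hDIM : DimStmt := H42.dim hFSH H10.fuq hQPR
  have hVTF : VtfStmt := H39.vtf hTBD hTPE hTDF hFSR
  have hSPN : SpnStmt := H88.spn hFSH hQPR hDIM hVTF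
  have hPR2 : Pr2Stmt := H49.pr2 hTBD THS.H90.bij
  have hPRV : PrvStmt := H40.prv hPR2
  have hCHS : ChsStmt := H3.chs hPRV hVTF
  have hUVL : UvlStmt := H81.uvl hTBD
  have hRML : RmlStmt := Pool.Agent.Helper91_ZES.RML.result hTDF hTOU
  have hNVT : NvtStmt := H51.nvt hSPN hRML
  have hMUL : MulStmt := H94.mul hORT hVTF hSPN hCHS hUVL hNVT
  -- block K
  have hGAU : GauStmt := H82.gau H70.qmx H92.pqi H5.ali
  -- block Z
  have hTNM : TnmStmt := H7.tnm hALN
  have hESD : EsdStmt := H64.esd hTNM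
  have hBND : BndStmt := H46.bnd hCNT H11.jac H7.sep hTNM hPWD hESD
  have hAZE : AzeStmt := H3.aze hCHN hGOU hLOU hESD hTNM hPWD hBND
  have hTRF : TrfStmt := H52.trf hDIM hMUL hRML
  exact H80.zet hGAU hTRF hAZE

end Pool.Agent.ZES.H40
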