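import Pool.Agent.Helper40_ZES.FIN
import Pool.Agent.Helper40_ZES.Fin2
import Pool.Agent.Helper57_SZG.Final
import Pool.Agent.Helper92_SZG.XPR
import Pool.Agent.Helper62_SZG.XNE
import Pool.Agent.Helper70_SZG.MNH
import Pool.Agent.Helper43_SZG.HLB
import Pool.Agent.Helper39_SZG.SLC
import Pool.Agent.Helper29_SZG.AS3
import Pool.Agent.Helper89_THS.Final

/-!
ZES, SZG, THS: the final combination.
-/

namespace Pool.Agent.ZES.H40

open Pool.Agent.THS Pool.Agent.SZG

/-- The Szpiro ratio theorem at the places of general type, proved. -/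
theorem szg3 : Szg3Statement := by
  have hTBD : TbdStatement :=
    Pool.Agent.Helper92_THS.tbd THS.H77.coe THS.H27.gso THS.H56.pis
  have hTLD : TldStatement := THS.H21.tld hTBD
  have hTPE : TpeStatement := THS.H65.tpe
  have hPRD : PrdStatement := THS.H53.prd hTBD THS.H90.bij
  have hRRE : RreStatement := THS.H62.rre hPRD hTPE
  have hORT : OrtStatement := THS.H70.ort
  have hINV : InvStatement := THS.H62.inv hRRE hORT
  have hTCP : TcpStatement := THS.H49.tcp hTPE
  have hTNV : TnvStatement := THS.H16.tnv hTBD THS.H53.grd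
  have hTCN : TcnStatement := THS.H87.tcn hPRD hTLD hTNV THS.H10.lprF
  have hKMO' : KmoStatement :=
    THS.H2.kmo hPRD hTPE hTLD hTNV hTCN THS.H91.sqm THS.H86.lin
  have hKLA : KlaStatement := THS.H44.kla hKMO' hTPE hTNV
  have hTOU : TouStatement := THS.H60.tou hRRE hINV hTCP hTCN hKLA
  have hLAR : LarStatement := THS.H49.lar hORT
  have hLNA : LnaStatement := THS.H25.lna hORT
  have hHCP : HcpStatement := THS.H77.hcp THS.H6.hfs
  have hHTK : HtkStatement := Pool.Agent.Helper92_THS.htk hHCP hLAR hLNA THS.H41.prb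
  have hHXK : HxkStatement := THS.H41.hxk hHCP hORT
  have hHTZ : HtzStatement := THS.H49.htz hHCP
  have hHXB : HxbStatement := THS.H49.hxb hHTK hHXK hHTZ
  have hPIG : PigStatement := THS.H62.pig hHXB (THS.H27.npp THS.H49.nuf)
  have hRQI : RqiStatement := THS.H62.rqi hORT
  have hTHD : ThdStatement :=
    THS.H44.thd hTOU (THS.H33.sca hRQI) (THS.H21.pxv hRQI) THS.H94.spe (THS.H65.nsd hRQI)
  have hNOR : SZG.NorStmt := SZG.H71.nor hTHD hPIG THS.H42.prp
  have hXPR := SZG.H92.xpr hTPE
  have hXNE := SZG.H62.xne hTHD THS.H42.prp hHXB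
  have hMNH := SZG.H70.mnh SZG.H94.pfg hHCP
  exact SZG.H29.as3 SZG.H57.final hNOR (SZG.H43.hlb hXPR hXNE hMNH) SZG.H39.slc

/-- **The final theorem.** -/
theorem final : FinStatement := fin szg3 zetFinal THS.H89.final

end Pool.Agent.ZES.H40
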